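import Pool.Agent.Helper54.DT.StmtsH

/-! The symbols of the formulas with few nonlinear constraints are computable in polynomial
time. -/

namespace Pool.Agent.Helper38.DCT

open Finset Pool.Agent.Helper54.ETR Pool.Agent.Helper54.Poly Pool.Agent.Helper54.DI
open Pool.Agent.Helper54.DT

/-! ### naturality -/

theorem sumO_toks : ∀ l : List Term, (sumO oT l).toks = sumO oK (l.map Term.toks)
  | [] => rfl
  | t :: l => by
    change Tok.add :: (t.toks ++ (sumO oT l).toks) = Tok.add :: (t.toks ++ sumO oK (l.map Term.toks))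
    rw [sumO_toks l]

theorem nuO_toks : ∀ n, (nuO oT n).toks = nuO oK n
  | 0 => rfl
  | n + 1 => by
    change Tok.add :: ((nuO oT n).toks ++ [Tok.one]) = Tok.add :: (nuO oK n ++ [Tok.one])
    rw [nuO_toks n]

theorem cO_toks (f : SF) (v w : ℕ) : (cO oT f v w).toks = cO oK f v w := by
  change Tok.sub :: ((nuO oT _).toks ++ (nuO oT _).toks) = Tok.sub :: (nuO oK _ ++ nuO oK _)
  rw [nuO_toks, nuO_toks]

theorem sum2_toks (M : ℕ) (F : ℕ → ℕ → Term) :
    (sum2 oT M F).toks = sum2 oK M fun v w => (F v w).toks := by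
  unfold sum2
  rw [sumO_toks, List.map_flatMap]
  simp only [List.map_map]
  rfl

theorem sumY_toks (M : ℕ) (Fs : List SF) (F : SF → ℕ → ℕ → ℕ → ℕ → ℕ → Term) :
    (sumY oT M Fs F).toks = sumY oK M Fs fun f l v w a b => (F f l v w a b).toks := by
  unfold sumY
  rw [sumO_toks]
  simp only [List.map_flatMap, List.map_map]
  rfl

theorem zz_toks (v w : ℕ) : (Pool.Agent.Helper54.DT.zz oT v w).toks =
    Pool.Agent.Helper54.DT.zz oK v w := rfl

theorem CO_toks (M : ℕ) (Fs : List SF) : (CO oT M Fs).toks = CO oK M Fs := by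
  unfold CO
  rw [sumO_toks, List.map_map]
  refine congrArg (sumO oK) (List.map_congr_left fun f _ => ?_)
  rw [Function.comp_apply, sum2_toks]
  refine congrArg (sum2 oK M) (funext fun v => funext fun w => ?_)
  change Tok.add :: ((Tok.mul :: ((cO oT f v w).toks ++ (cO oT f v w).toks)) ++
    (Tok.mul :: ((cO oT f v w).toks ++ (cO oT f v w).toks))) = _
  rw [cO_toks]
  rfl

theorem ballO_toks (M : ℕ) (Fs : List SF) (p : Term) :
    (ballO oT M Fs p).toks = ballO oK M Fs p.toks := by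
  change Tok.add :: ((Tok.add :: ((sumO oT _).toks ++ (Tok.mul :: ((CO oT M Fs).toks ++
    (sumY oT M Fs _).toks)))) ++ p.toks) = _
  rw [sumO_toks, CO_toks, sumY_toks, List.map_map]
  rfl

theorem cubO_toks (M : ℕ) (Fs : List SF) (p : Term) :
    (cubO oT M Fs p).toks = cubO oK M Fs p.toks := by
  change Tok.add :: ((sumY oT M Fs _).toks ++ p.toks) = Tok.add :: (sumY oK M Fs _ ++ p.toks)
  rw [sumY_toks]
  refine congrArg (fun u => Tok.add :: (u ++ p.toks)) ?_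
  refine congrArg (sumY oK M Fs) ?_
  funext f l v w a b
  change Tok.mul :: (vt _ ++ (Tok.sub :: ((Tok.mul :: ((cO oT f v w).toks ++ _)) ++
    (Tok.mul :: ((cO oT f a b).toks ++ _))))) = _
  rw [cO_toks, cO_toks]
  rfl

theorem qO_toks (M : ℕ) (f : SF) : (qO oT M f).toks = qO oK M f := by
  unfold qO
  rw [sum2_toks]
  refine congrArg (sum2 oK M) (funext fun v => funext fun w => ?_)
  change Tok.mul :: ((cO oT f v w).toks ++ _) = _
  rw [cO_toks]
  rfl

theorem quaO_toks (M : ℕ) (Fs : List SF) : (quaO oT M Fs).toks = quaO oK M Fs := by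
  change Tok.add :: ((Tok.add :: (_ ++ (sumO oT _).toks)) ++ _) = _
  rw [sumO_toks, List.map_map]
  have : (Fs.map (Term.toks ∘ fun f => oT.mul (qO oT M f) (qO oT M f))) =
      Fs.map fun f => oK.mul (qO oK M f) (qO oK M f) := by
    refine List.map_congr_left fun f _ => ?_
    change Tok.mul :: ((qO oT M f).toks ++ (qO oT M f).toks) = _
    rw [qO_toks]
    rfl
  rw [this]
  rfl

/-! ### closed forms -/

theorem sumO_oK : ∀ l : List (List Tok),
    sumO oK l = (l.flatMap fun s => Tok.add :: s) ++ [Tok.zero]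
  | [] => rfl
  | s :: l => by
    change Tok.add :: (s ++ sumO oK l) = _
    rw [sumO_oK l, List.flatMap_cons]
    simp

theorem nuO_oK : ∀ n, nuO oK n = List.replicate n Tok.add ++ (Tok.zero :: List.replicate n Tok.one)
  | 0 => rfl
  | n + 1 => by
    change Tok.add :: (nuO oK n ++ [Tok.one]) = _
    rw [nuO_oK n, List.replicate_succ, List.replicate_succ' (a := Tok.one)]
    simp

/-! ### polynomial time -/

section

variable {α : Type} [TEnc α]

theorem PTsumO {l : α → List (List Tok)} (hl : PT l) : PT (fun a => sumO oK (l a)) := by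
  have h1 : PT (fun z : α × List Tok => Tok.add :: z.2) := PT.lcons (PT.const _) PT.id.snd
  exact (PT.append (PT.flatMap h1 hl) (PT.const [Tok.zero])).congr fun a => (sumO_oK _).symm

theorem PTnuO {n : α → ℕ} (hn : PT n) : PT (fun a => nuO oK (n a)) :=
  (PT.append (PT.replicate hn (PT.const Tok.add)) (PT.lcons (PT.const Tok.zero)
    (PT.replicate hn (PT.const Tok.one)))).congr fun a => (nuO_oK _).symm

theorem PTbin (t : Tok) {a b : α → List Tok} (ha : PT a) (hb : PT b) :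
    PT (fun x => t :: (a x ++ b x)) := PT.lcons (PT.const _) (PT.append ha hb)

theorem PTvt' {i : α → ℕ} (hi : PT i) : PT (fun a => vt (i a)) :=
  PT.lcons (PT.const _) (PT.append (PT.replicate hi (PT.const _)) (PT.const _))

theorem PTnpair {f g : α → ℕ} (hf : PT f) (hg : PT g) : PT (fun a => Nat.pair (f a) (g a)) := by
  have h1 : PT (fun a => decide (f a + 1 ≤ g a)) := PT.leN (PT.succ hf) hg
  refine (PT.ite h1 (PT.add (PT.mul hg hg) hf) (PT.add (PT.add (PT.mul hf hf) hf) hg)).congr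
    fun a => ?_
  unfold Nat.pair
  by_cases h : f a < g a
  · rw [if_pos (decide_eq_true (show f a + 1 ≤ g a from h)), if_pos h]
  · rw [if_neg h, if_neg]
    intro h2
    exact h (of_decide_eq_true h2)

theorem PTcnt (b : Bool) {f : α → SF} {v w : α → ℕ} (hf : PT f) (hv : PT v) (hw : PT w) :
    PT (fun a => cnt b (f a) (v a) (w a)) := by
  have hb : PT (fun z : α × (Bool × (ℕ × ℕ)) => z.2.1 == b) :=
    PT.beq PT.id.snd.fst (PT.const b)
  have h1 : PT (fun z : α × (Bool × (ℕ × ℕ)) => decide (z.2.2.1 = v z.1)) :=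
    PT.eqN PT.id.snd.snd.fst (hv.comp PT.id.fst)
  have h2 : PT (fun z : α × (Bool × (ℕ × ℕ)) => decide (z.2.2.2 = w z.1)) :=
    PT.eqN PT.id.snd.snd.snd (hw.comp PT.id.fst)
  have h3 := PT.ite (PT.and hb (PT.and h1 h2)) (PT.const [()]) (PT.const ([] : List Unit))
  refine (PT.length (PT.flatMap h3 hf)).congr fun a => ?_
  unfold cnt
  generalize f a = l
  induction l with
  | nil => rfl
  | cons e l ih =>
    rw [List.flatMap_cons, List.length_append, ih, List.filter_cons]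
    by_cases h : ((e.1 == b) && (decide (e.2.1 = v a) && decide (e.2.2 = w a))) = true
    · rw [if_pos h, if_pos h, List.length_cons, List.length_cons, List.length_nil]
      omega
    · rw [if_neg h, if_neg h, List.length_nil, zero_add]

theorem PTcO {f : α → SF} {v w : α → ℕ} (hf : PT f) (hv : PT v) (hw : PT w) :
    PT (fun a => cO oK (f a) (v a) (w a)) :=
  PTbin Tok.sub (PTnuO (PTcnt true hf hv hw)) (PTnuO (PTcnt false hf hv hw))

theorem PTzv {v : α → ℕ} (hv : PT v) : PT (fun a => zv (v a)) := PT.mul (PT.const 2) hv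

theorem PTyv {l v w a b : α → ℕ} (hl : PT l) (hv : PT v) (hw : PT w) (ha : PT a) (hb : PT b) :
    PT (fun x => yv (l x) (v x) (w x) (a x) (b x)) :=
  PT.add (PT.mul (PT.const 2) (PTnpair hl (PTnpair (PTnpair hv hw) (PTnpair ha hb)))) (PT.const 1)

theorem PTzz {v w : α → ℕ} (hv : PT v) (hw : PT w) :
    PT (fun a => Pool.Agent.Helper54.DT.zz oK (v a) (w a)) :=
  PTbin Tok.mul (PTvt' (PTzv hv)) (PTvt' (PTzv hw))

theorem PTsum2 {M : α → ℕ} {F : α → ℕ → ℕ → List Tok} (hM : PT M)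
    (hF : PT (fun z : α × (ℕ × ℕ) => F z.1 z.2.1 z.2.2)) :
    PT (fun a => sum2 oK (M a) (F a)) := by
  have h0 : PT (fun y : (α × ℕ) × ℕ => F y.1.1 y.1.2 y.2) :=
    hF.comp (PT.id.fst.fst.pair (PT.id.fst.snd.pair PT.id.snd))
  have h1 : PT (fun y : α × ℕ => (List.range (M y.1)).map fun w => F y.1 y.2 w) :=
    PT.map h0 (PT.range (hM.comp PT.id.fst))
  exact PTsumO (PT.flatMap h1 (PT.range hM))

theorem PTsumY {M : α → ℕ} {Fs : α → List SF} {F : α → SF → ℕ → ℕ → ℕ → ℕ → ℕ → List Tok}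
    (hM : PT M) (hFs : PT Fs)
    (hF : PT (fun z : α × (SF × (ℕ × (ℕ × (ℕ × (ℕ × ℕ))))) =>
      F z.1 z.2.1 z.2.2.1 z.2.2.2.1 z.2.2.2.2.1 z.2.2.2.2.2.1 z.2.2.2.2.2.2)) :
    PT (fun a => sumY oK (M a) (Fs a) (F a)) := by
  have h5 : PT (fun y : ((((α × ℕ) × ℕ) × ℕ) × ℕ) × ℕ =>
      F y.1.1.1.1.1 ((Fs y.1.1.1.1.1).getD y.1.1.1.1.2 []) y.1.1.1.1.2 y.1.1.1.2 y.1.1.2 y.1.2
        y.2) :=
    hF.comp (PT.id.fst.fst.fst.fst.fst.pair
      ((PT.getD PT.id.fst.fst.fst.fst.snd (hFs.comp PT.id.fst.fst.fst.fst.fst)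
        (PT.const [])).pair
      (PT.id.fst.fst.fst.fst.snd.pair (PT.id.fst.fst.fst.snd.pair (PT.id.fst.fst.snd.pair
        (PT.id.fst.snd.pair PT.id.snd))))))
  have h4 : PT (fun y : (((α × ℕ) × ℕ) × ℕ) × ℕ => (List.range (M y.1.1.1.1)).map fun b =>
      F y.1.1.1.1 ((Fs y.1.1.1.1).getD y.1.1.1.2 []) y.1.1.1.2 y.1.1.2 y.1.2 y.2 b) :=
    PT.map h5 (PT.range (hM.comp PT.id.fst.fst.fst.fst))
  have h3 : PT (fun y : ((α × ℕ) × ℕ) × ℕ => (List.range (M y.1.1.1)).flatMap fun a =>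
      (List.range (M y.1.1.1)).map fun b =>
      F y.1.1.1 ((Fs y.1.1.1).getD y.1.1.2 []) y.1.1.2 y.1.2 y.2 a b) :=
    PT.flatMap h4 (PT.range (hM.comp PT.id.fst.fst.fst))
  have h2 : PT (fun y : (α × ℕ) × ℕ => (List.range (M y.1.1)).flatMap fun w =>
      (List.range (M y.1.1)).flatMap fun a =>
      (List.range (M y.1.1)).map fun b =>
      F y.1.1 ((Fs y.1.1).getD y.1.2 []) y.1.2 y.2 w a b) :=
    PT.flatMap h3 (PT.range (hM.comp PT.id.fst.fst))
  have h1 : PT (fun y : α × ℕ => (List.range (M y.1)).flatMap fun v =>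
      (List.range (M y.1)).flatMap fun w =>
      (List.range (M y.1)).flatMap fun a =>
      (List.range (M y.1)).map fun b =>
      F y.1 ((Fs y.1).getD y.2 []) y.2 v w a b) :=
    PT.flatMap h2 (PT.range (hM.comp PT.id.fst))
  exact PTsumO (PT.flatMap h1 (PT.range (PT.length hFs)))

theorem PTCO {M : α → ℕ} {Fs : α → List SF} (hM : PT M) (hFs : PT Fs) :
    PT (fun a => CO oK (M a) (Fs a)) := by
  have h0 : PT (fun z : (α × SF) × (ℕ × ℕ) => cO oK z.1.2 z.2.1 z.2.2) :=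
    PTcO PT.id.fst.snd PT.id.snd.fst PT.id.snd.snd
  have h1 : PT (fun y : α × SF => sum2 oK (M y.1) fun v w =>
      oK.add (oK.mul (cO oK y.2 v w) (cO oK y.2 v w)) (oK.mul (cO oK y.2 v w) (cO oK y.2 v w))) :=
    PTsum2 (hM.comp PT.id.fst) (PTbin Tok.add (PTbin Tok.mul h0 h0) (PTbin Tok.mul h0 h0))
  exact PTsumO (PT.map h1 hFs)

theorem PTballO {M : α → ℕ} {Fs : α → List SF} (hM : PT M) (hFs : PT Fs) (p : List Tok) :
    PT (fun a => ballO oK (M a) (Fs a) p) := by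
  have h1 : PT (fun z : α × ℕ => Pool.Agent.Helper54.DT.zz oK z.2 z.2) :=
    PTzz PT.id.snd PT.id.snd
  have h2 : PT (fun z : α × (SF × (ℕ × (ℕ × (ℕ × (ℕ × ℕ))))) =>
      vt (yv z.2.2.1 z.2.2.2.1 z.2.2.2.2.1 z.2.2.2.2.2.1 z.2.2.2.2.2.2)) :=
    PTvt' (PTyv PT.id.snd.snd.fst PT.id.snd.snd.snd.fst PT.id.snd.snd.snd.snd.fst
      PT.id.snd.snd.snd.snd.snd.fst PT.id.snd.snd.snd.snd.snd.snd)
  have h3 : PT (fun a => sumY oK (M a) (Fs a) fun _ l v w a b =>
      oK.mul (oK.var (yv l v w a b)) (oK.var (yv l v w a b))) :=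
    PTsumY hM hFs (PTbin Tok.mul h2 h2)
  exact PTbin Tok.add (PTbin Tok.add (PTsumO (PT.map h1 (PT.range hM)))
    (PTbin Tok.mul (PTCO hM hFs) h3)) (PT.const p)

theorem PTcubO {M : α → ℕ} {Fs : α → List SF} (hM : PT M) (hFs : PT Fs) (p : List Tok) :
    PT (fun a => cubO oK (M a) (Fs a) p) := by
  have hf : PT (fun z : α × (SF × (ℕ × (ℕ × (ℕ × (ℕ × ℕ))))) => z.2.1) := PT.id.snd.fst
  have hl : PT (fun z : α × (SF × (ℕ × (ℕ × (ℕ × (ℕ × ℕ))))) => z.2.2.1) := PT.id.snd.snd.fst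
  have hv : PT (fun z : α × (SF × (ℕ × (ℕ × (ℕ × (ℕ × ℕ))))) => z.2.2.2.1) :=
    PT.id.snd.snd.snd.fst
  have hw : PT (fun z : α × (SF × (ℕ × (ℕ × (ℕ × (ℕ × ℕ))))) => z.2.2.2.2.1) :=
    PT.id.snd.snd.snd.snd.fst
  have ha : PT (fun z : α × (SF × (ℕ × (ℕ × (ℕ × (ℕ × ℕ))))) => z.2.2.2.2.2.1) :=
    PT.id.snd.snd.snd.snd.snd.fst
  have hb : PT (fun z : α × (SF × (ℕ × (ℕ × (ℕ × (ℕ × ℕ))))) => z.2.2.2.2.2.2) :=
    PT.id.snd.snd.snd.snd.snd.snd
  have h3 : PT (fun a => sumY oK (M a) (Fs a) fun f l v w a b =>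
      oK.mul (oK.var (yv l v w a b)) (oK.sub (oK.mul (cO oK f v w)
        (Pool.Agent.Helper54.DT.zz oK a b)) (oK.mul (cO oK f a b)
        (Pool.Agent.Helper54.DT.zz oK v w)))) :=
    PTsumY hM hFs (PTbin Tok.mul (PTvt' (PTyv hl hv hw ha hb)) (PTbin Tok.sub
      (PTbin Tok.mul (PTcO hf hv hw) (PTzz ha hb)) (PTbin Tok.mul (PTcO hf ha hb) (PTzz hv hw))))
  exact PTbin Tok.add h3 (PT.const p)

theorem PTqO {M : α → ℕ} {f : α → SF} (hM : PT M) (hf : PT f) :
    PT (fun a => qO oK (M a) (f a)) := by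
  have h0 : PT (fun z : α × (ℕ × ℕ) => cO oK (f z.1) z.2.1 z.2.2) :=
    PTcO (hf.comp PT.id.fst) PT.id.snd.fst PT.id.snd.snd
  have h1 : PT (fun z : α × (ℕ × ℕ) => Pool.Agent.Helper54.DT.zz oK z.2.1 z.2.2) :=
    PTzz PT.id.snd.fst PT.id.snd.snd
  exact PTsum2 (F := fun a v w => oK.mul (cO oK (f a) v w) (Pool.Agent.Helper54.DT.zz oK v w)) hM
    (PTbin Tok.mul h0 h1)

theorem PTquaO {M : α → ℕ} {Fs : α → List SF} (hM : PT M) (hFs : PT Fs) :
    PT (fun a => quaO oK (M a) (Fs a)) := by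
  have h0 : PT (fun y : α × SF => qO oK (M y.1) y.2) := PTqO (hM.comp PT.id.fst) PT.id.snd
  have h1 : PT (fun y : α × SF => oK.mul (qO oK (M y.1) y.2) (qO oK (M y.1) y.2)) :=
    PTbin Tok.mul h0 h0
  exact PTbin Tok.add (PTbin Tok.add (PT.const (oK.mul (oK.sub (oK.var 0) oK.one)
    (oK.sub (oK.var 0) oK.one))) (PTsumO (PT.map h1 hFs))) (PT.const (p4 oK))

end

theorem F2_toks (M : ℕ) : ∀ Fs : List SF, (F2 M Fs).toks =
    (Fs.flatMap fun f => Tok.and :: (Tok.eq :: (qO oK M f ++ [Tok.zero]))) ++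
      (Form.eq (Term.var 0) Term.one).toks
  | [] => rfl
  | f :: Fs => by
    change Tok.and :: ((Tok.eq :: ((qO oT M f).toks ++ [Tok.zero])) ++ (F2 M Fs).toks) = _
    rw [F2_toks M Fs, qO_toks, List.flatMap_cons]
    simp

theorem st_PTF : ST_PTF := by
  intro α _ M Fs hM hFs
  refine ⟨?_, ?_, ?_, ?_⟩
  · refine (PTbin Tok.and (PTbin Tok.le (PTballO hM hFs (p2 oK)) (PT.const (nuO oK 3)))
      (PTbin Tok.ge (PTcubO hM hFs (p3 oK)) (PT.const (nuO oK 2)))).congr fun a => ?_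
    change _ = Tok.and :: ((Tok.le :: ((ballO oT (M a) (Fs a) (p2 oT)).toks ++ (nuO oT 3).toks)) ++
      (Tok.ge :: ((cubO oT (M a) (Fs a) (p3 oT)).toks ++ (nuO oT 2).toks)))
    rw [ballO_toks, cubO_toks]
    rfl
  · refine (PTbin Tok.and (PTbin Tok.le (PTballO hM hFs (p3 oK)) (PT.const (nuO oK 3)))
      (PTbin Tok.ge (PTcubO hM hFs (p3 oK)) (PT.const (nuO oK 2)))).congr fun a => ?_
    change _ = Tok.and :: ((Tok.le :: ((ballO oT (M a) (Fs a) (p3 oT)).toks ++ (nuO oT 3).toks)) ++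
      (Tok.ge :: ((cubO oT (M a) (Fs a) (p3 oT)).toks ++ (nuO oT 2).toks)))
    rw [ballO_toks, cubO_toks]
    rfl
  · refine (PTbin Tok.eq (PTquaO hM hFs) (PT.const [Tok.zero])).congr fun a => ?_
    change _ = Tok.eq :: ((quaO oT (M a) (Fs a)).toks ++ [Tok.zero])
    rw [quaO_toks]
  · have h1 : PT (fun y : α × SF =>
        (Tok.and :: (Tok.eq :: (qO oK (M y.1) y.2 ++ [Tok.zero])) : List Tok)) :=
      PT.lcons (PT.const _) (PTbin Tok.eq (PTqO (hM.comp PT.id.fst) PT.id.snd) (PT.const _))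
    exact (PT.append (PT.flatMap h1 hFs) (PT.const _)).congr fun a => (F2_toks (M a) (Fs a)).symm

end Pool.Agent.Helper38.DCT
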